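import Mathlib

set_option autoImplicit false

namespace Pool.Agent.Results.MP_07e2b8_al.Counter

open CategoryTheory PowerSeries

theorem aux0 {R : Type} [CommRing R] (r : R) (hr : ∀ x, r * x = 0 → x = 0) :
    ∃ N : ModuleCat.{0} R, Module.Finite R N ∧ HasProjectiveDimensionLE N 1 ∧
      Module.annihilator R N = Ideal.span {r} := by
  have h0 : IsSMulRegular R r := fun a b hab =>
    sub_eq_zero.1 (hr _ (by rw [mul_sub]; exact sub_eq_zero.2 hab))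
  have hreg : IsSMulRegular (ModuleCat.of R R) r := h0
  refine ⟨.of R (QuotSMulTop r R), inferInstance,
    hreg.smulShortComplex_shortExact.hasProjectiveDimensionLT_X₃ 1
      (inferInstanceAs (HasProjectiveDimensionLT (ModuleCat.of R R) 1))
      (inferInstanceAs (HasProjectiveDimensionLT (ModuleCat.of R R) 2)), ?_⟩
  rw [← Ideal.annihilator_quotient (I := Ideal.span {r})]
  refine LinearEquiv.annihilator_eq (Submodule.quotEquivOfEq _ _ ?_)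
  rw [← Submodule.ideal_span_singleton_smul, smul_eq_mul, Ideal.mul_top]

theorem aux {S : Type} [CommRing S] [IsLocalRing S] [IsNoetherianRing S] (P₁ P₂ Q : Ideal S)
    [h₁ : P₁.IsPrime] [h₂ : P₂.IsPrime] [hQ : Q.IsPrime] (f y : S) (f₁ : f ∉ P₁) (f₂ : f ∉ P₂)
    (fQ : f ∈ Q) (h1Q : P₁ ≤ Q) (h12 : ¬ P₁ ≤ P₂) (y₂ : y ∈ P₂) (yQ : y ∉ Q)
    (hm : ∀ q : Ideal S, q.IsPrime → P₂ ≤ q → f ∈ q → Q ≤ q) :
    ∃ (R : Type) (_ : CommRing R) (_ : IsLocalRing R) (_ : IsNoetherianRing R)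
      (N : ModuleCat.{0} R), Module.Finite R N ∧ Nontrivial N ∧ HasProjectiveDimensionLE N 1 ∧
      ∃ p ∈ minimalPrimes R, ∀ q ∈ (Module.annihilator R N).minimalPrimes, ¬ p ≤ q := by
  let π := Ideal.Quotient.mk (P₁ ⊓ P₂)
  have hπ : Function.Surjective π := Ideal.Quotient.mk_surjective
  have hk : RingHom.ker π = P₁ ⊓ P₂ := Ideal.mk_ker
  haveI : Nontrivial (S ⧸ (P₁ ⊓ P₂)) :=
    Ideal.Quotient.nontrivial_iff.2 (ne_top_of_le_ne_top h₁.ne_top inf_le_left)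
  haveI : IsLocalRing (S ⧸ (P₁ ⊓ P₂)) := .of_surjective' π hπ
  obtain ⟨N, n1, n2, han⟩ := aux0 (π f) fun x hx => by
    obtain ⟨s, rfl⟩ := hπ x
    rw [← map_mul, Ideal.Quotient.eq_zero_iff_mem] at hx
    exact Ideal.Quotient.eq_zero_iff_mem.2 ⟨(h₁.mem_or_mem hx.1).resolve_left f₁,
      (h₂.mem_or_mem hx.2).resolve_left f₂⟩
  have hp : ∀ (P : Ideal S) [P.IsPrime], P₁ ⊓ P₂ ≤ P → (P.map π).IsPrime ∧ (P.map π).comap π = P :=
    fun P _ h => ⟨Ideal.map_isPrime_of_surjective hπ (hk.trans_le h), by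
      rw [Ideal.comap_map_of_surjective _ hπ, sup_eq_left]
      exact hk.trans_le h⟩
  obtain ⟨q1, q2⟩ := hp Q (inf_le_left.trans h1Q)
  obtain ⟨p1, p2⟩ := hp P₂ inf_le_right
  have hfQ : Ideal.span {π f} ≤ Q.map π :=
    (Ideal.span_singleton_le_iff_mem _).2 (Ideal.mem_map_of_mem _ fQ)
  refine ⟨S ⧸ (P₁ ⊓ P₂), inferInstance, inferInstance, inferInstance,
    N, n1, ?_, n2,
    P₂.map π, ⟨⟨p1, bot_le⟩, fun q hq hle => ?_⟩, fun q hq hle => ?_⟩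
  · by_contra hn
    rw [not_nontrivial_iff_subsingleton, ← Module.annihilator_eq_top_iff (R := S ⧸ (P₁ ⊓ P₂)),
      han] at hn
    exact q1.ne_top (top_le_iff.1 (hn ▸ hfQ))
  · haveI := hq.1
    have h3 : P₁ ⊓ P₂ ≤ q.comap π := hk.ge.trans (Ideal.ker_le_comap π)
    rcases (Ideal.comap_isPrime π q).inf_le.1 h3 with h | h
    · exact absurd (h.trans ((Ideal.comap_mono hle).trans_eq p2)) h12
    · exact Ideal.map_le_iff_le_comap.2 h
  · rw [han] at hq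
    haveI := hq.1.1
    have h3 := Ideal.map_le_iff_le_comap.1 hle
    have h4 := hm _ (Ideal.comap_isPrime π q) h3 (hq.1.2 (Ideal.mem_span_singleton_self _))
    exact yQ (q2 ▸ Ideal.comap_mono (hq.2 ⟨q1, hfQ⟩ (Ideal.map_le_iff_le_comap.2 h4)) (h3 y₂))

theorem result : ∃ (R : Type) (_ : CommRing R) (_ : IsLocalRing R) (_ : IsNoetherianRing R)
    (N : ModuleCat.{0} R), Module.Finite R N ∧ Nontrivial N ∧ HasProjectiveDimensionLE N 1 ∧
    ∃ p ∈ minimalPrimes R, ∀ q ∈ (Module.annihilator R N).minimalPrimes, ¬ p ≤ q := by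
  let φ₁ : ℚ⟦X⟧⟦X⟧⟦X⟧ →+* ℚ⟦X⟧⟦X⟧ := PowerSeries.map (PowerSeries.map constantCoeff)
  let φ₂ : ℚ⟦X⟧⟦X⟧⟦X⟧ →+* ℚ⟦X⟧ := constantCoeff.comp constantCoeff
  let φ₃ : ℚ⟦X⟧⟦X⟧⟦X⟧ →+* ℚ⟦X⟧ := constantCoeff.comp φ₁
  haveI := RingHom.ker_isPrime φ₁
  haveI := RingHom.ker_isPrime φ₂
  haveI := RingHom.ker_isPrime φ₃
  have hs : Function.Surjective φ₂ := fun a => ⟨C (C a), by simp [φ₂]⟩
  refine aux (RingHom.ker φ₁) (RingHom.ker φ₂) (RingHom.ker φ₃) (X + C (C X)) (C X)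
    (by simp [φ₁, X_ne_zero]) (by simp [φ₂, X_ne_zero]) (by simp [φ₃, φ₁]) (fun s hs => ?_)
    (fun h => ?_) (by simp [φ₂]) (by simp [φ₃, φ₁, X_ne_zero]) fun q hq h1 h2 => ?_
  · rw [RingHom.mem_ker] at hs ⊢
    rw [RingHom.comp_apply, hs, map_zero]
  · have := @h (C (C X)) (by simp [φ₁])
    simp [φ₂, X_ne_zero] at this
  · have h3 := Ideal.map_isPrime_of_surjective hs h1
    have h4 : (q.map φ₂).IsMaximal := h3.isMaximal fun h => by
      have := Ideal.mem_map_of_mem φ₂ h2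
      simp [h, φ₂, X_ne_zero] at this
    have h5 := Ideal.comap_isMaximal_of_surjective φ₂ hs (K := q.map φ₂)
    rw [Ideal.comap_map_of_surjective _ hs, ← RingHom.ker_eq_comap_bot,
      sup_eq_left.2 h1] at h5
    rw [IsLocalRing.eq_maximalIdeal h5]
    exact IsLocalRing.le_maximalIdeal (Ideal.IsPrime.ne_top ‹_›)

end Pool.Agent.Results.MP_07e2b8_al.Counter
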